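import Pool.Agent.NPG.StmtsD

/-!
# Row EXT of squad NPY: the extension operator of a closed embedding
-/

set_option autoImplicit false

open MeasureTheory Set Topology

namespace Pool.Agent.NPY.H75

open Pool.Agent.LSG Pool.Agent.NPY

/-- Row EXT -/
theorem ext (hDUG : DugStmt) (hBRI : BriStmt) : ExtStmt := by
  intro A Z _ _ _ ι hι
  obtain ⟨φ, hφ, hφa⟩ := (hBRI.2 Z (Set.range ι)).mpr (hDUG Z (Set.range ι) hι.isClosed_range)
  let h : A ≃ₜ Set.range ι := hι.isEmbedding.toHomeomorph
  let r : C(A, ℝ) →ₗ[ℝ] C(Set.range ι, ℝ) :=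
    { toFun := fun f => f.comp ⟨h.symm, h.symm.continuous⟩
      map_add' := fun f g => rfl
      map_smul' := fun c f => rfl }
  refine ⟨φ ∘ₗ r, ?_, ?_⟩
  · have h1 : Continuous fun f : {g : A → ℝ // Continuous g} =>
        (⟨f.1 ∘ h.symm, f.2.comp h.symm.continuous⟩ : {g : Set.range ι → ℝ // Continuous g}) := by
      refine Continuous.subtype_mk ?_ _
      refine continuous_pi fun x => ?_
      exact (continuous_apply (h.symm x)).comp continuous_subtype_val
    have h2 : Continuous fun f : {g : Set.range ι → ℝ // Continuous g} =>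
        (⇑(φ ⟨f.1, f.2⟩) : Z → ℝ) := hφ
    exact h2.comp h1
  · intro f a
    have h2 := hφa (r f) (h a)
    have h3 : ((h a : Set.range ι) : Z) = ι a := rfl
    rw [h3] at h2
    show φ (r f) (ι a) = f a
    rw [h2]
    show f (h.symm (h a)) = f a
    rw [h.symm_apply_apply]

end Pool.Agent.NPY.H75
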